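import Pool.Agent.Helper8.UN.Stmts

set_option autoImplicit false

open Finset

namespace Pool.Agent.Helper8.UN

/-- agreement outside `y` -/
def upd_R {n : ℕ} (y : Fin n) (f f' : Fin n → ℕ) : Prop := ∀ z, z ≠ y → f' z = f z

theorem upd_R_symm {n : ℕ} {y : Fin n} {f f' : Fin n → ℕ} (h : upd_R y f f') : upd_R y f' f :=
  fun z hz => (h z hz).symm

theorem upd_R_trans {n : ℕ} {y : Fin n} {f f' f'' : Fin n → ℕ} (h : upd_R y f f')
    (h' : upd_R y f' f'') : upd_R y f f'' := fun z hz => (h' z hz).trans (h z hz)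

theorem upd_R_refl {n : ℕ} (y : Fin n) (f : Fin n → ℕ) : upd_R y f f := fun _ _ => rfl

theorem upd_update {n : ℕ} {y : Fin n} {f f' : Fin n → ℕ} (h : upd_R y f f') :
    Function.update f y (f' y) = f' := by
  funext z
  by_cases hz : z = y
  · subst hz
    rw [Function.update_self]
  · rw [Function.update_of_ne hz, h z hz]

theorem upd_fib {n : ℕ} (S : Finset (Fin n → ℕ)) (f : Fin n → ℕ) (y : Fin n)
    [DecidablePred (upd_R y f)] :
    fib S f y = (S.filter (upd_R y f)).image (fun f' => f' y) := by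
  ext i
  simp only [fib, mem_image, mem_filter, upd_R]

theorem upd_inj {n : ℕ} (S : Finset (Fin n → ℕ)) (f : Fin n → ℕ) (y : Fin n)
    [DecidablePred (upd_R y f)] :
    Set.InjOn (fun f' : Fin n → ℕ => f' y) (S.filter (upd_R y f) : Finset (Fin n → ℕ)) := by
  intro a ha b hb hab
  rw [mem_coe, mem_filter] at ha hb
  rw [← upd_update ha.2, ← upd_update hb.2]
  simp only at hab
  rw [hab]

theorem upd_card {n : ℕ} (S : Finset (Fin n → ℕ)) (f : Fin n → ℕ) (y : Fin n)
    [DecidablePred (upd_R y f)] :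
    (fib S f y).card = (S.filter (upd_R y f)).card := by
  rw [upd_fib, card_image_of_injOn (upd_inj S f y)]

theorem upd_sum {n : ℕ} (S : Finset (Fin n → ℕ)) (f : Fin n → ℕ) (y : Fin n)
    [DecidablePred (upd_R y f)] (φ : (Fin n → ℕ) → ℝ) :
    ∑ f1 ∈ S, (if upd_R y f f1 then φ f1 else 0) =
      ∑ i ∈ fib S f y, φ (Function.update f y i) := by
  rw [← sum_filter, upd_fib, sum_image (upd_inj S f y)]
  apply sum_congr rfl
  intro f' hf'
  rw [mem_filter] at hf'
  rw [upd_update hf'.2]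

theorem upd_fib_congr {n : ℕ} (S : Finset (Fin n → ℕ)) {f f' : Fin n → ℕ} {y : Fin n}
    (h : upd_R y f f') : fib S f y = fib S f' y := by
  classical
  rw [upd_fib, upd_fib]
  congr 1
  apply filter_congr
  intro g _
  exact ⟨fun hg => upd_R_trans (upd_R_symm h) hg, fun hg => upd_R_trans h hg⟩

theorem upd_mem {n : ℕ} {S : Finset (Fin n → ℕ)} {f f' : Fin n → ℕ} {y : Fin n} (hf' : f' ∈ S)
    (h : upd_R y f f') : f' y ∈ fib S f y := by
  classical
  rw [upd_fib]
  exact mem_image_of_mem _ (mem_filter.2 ⟨hf', h⟩)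

theorem upd_swap {α β : Type} (S : Finset α) (T : Finset β) (G : α → β → α → β → ℝ) :
    ∑ a ∈ S, ∑ b ∈ T, ∑ c ∈ S, ∑ d ∈ T, G a b c d =
      ∑ c ∈ S, ∑ d ∈ T, ∑ a ∈ S, ∑ b ∈ T, G a b c d := by
  have h1 : ∀ a ∈ S, ∑ b ∈ T, ∑ c ∈ S, ∑ d ∈ T, G a b c d =
      ∑ c ∈ S, ∑ d ∈ T, ∑ b ∈ T, G a b c d := by
    intro a _
    rw [sum_comm]
    apply sum_congr rfl
    intro c _
    rw [sum_comm]
  rw [sum_congr rfl h1, sum_comm]
  apply sum_congr rfl
  intro c _
  rw [sum_comm]

theorem st_UPD (hKAP : ST_KAP) : ST_UPD := by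
  classical
  intro n S T ω y hω hS hT
  have hK : ∀ A B : Finset ℕ, ∃ κ : ℕ → ℕ → ℝ, A.Nonempty → B.Nonempty →
      (∀ i j, 0 ≤ κ i j) ∧ (∀ i ∈ A, ∑ j ∈ B, κ i j = 1 / (A.card : ℝ)) ∧
      (∀ j ∈ B, ∑ i ∈ A, κ i j = 1 / (B.card : ℝ)) ∧
      ∑ i ∈ A, ∑ j ∈ B, (if i = j then 0 else κ i j) ≤ tv A B := by
    intro A B
    by_cases hA : A.Nonempty
    · by_cases hB : B.Nonempty
      · obtain ⟨κ, h⟩ := hKAP A B hA hB
        exact ⟨κ, fun _ _ => h⟩
      · exact ⟨fun _ _ => 0, fun _ h => absurd h hB⟩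
    · exact ⟨fun _ _ => 0, fun h => absurd h hA⟩
  choose K hK using hK
  have hAne : ∀ f ∈ S, (fib S f y).Nonempty := fun f hf => ⟨_, upd_mem hf (upd_R_refl y f)⟩
  have hBne : ∀ g ∈ T, (fib T g y).Nonempty := fun g hg => ⟨_, upd_mem hg (upd_R_refl y g)⟩
  have hSc : (0 : ℝ) < S.card := by exact_mod_cast card_pos.2 hS
  have hTc : (0 : ℝ) < T.card := by exact_mod_cast card_pos.2 hT
  obtain ⟨ω', hω'⟩ : ∃ ω' : (Fin n → ℕ) → (Fin n → ℕ) → ℝ, ω' = fun f1 g1 => ∑ f ∈ S, ∑ g ∈ T,
    (if upd_R y f f1 then (if upd_R y g g1 then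
      ω f g * K (fib S f y) (fib T g y) (f1 y) (g1 y) else 0) else 0) := ⟨_, rfl⟩
  have hω'a : ∀ f1 g1, ω' f1 g1 = ∑ f ∈ S, ∑ g ∈ T,
    (if upd_R y f f1 then (if upd_R y g g1 then
      ω f g * K (fib S f y) (fib T g y) (f1 y) (g1 y) else 0) else 0) := by
    intro f1 g1
    rw [hω']
  -- general formula
  have hgen : ∀ F : (Fin n → ℕ) → (Fin n → ℕ) → ℝ, ∑ f1 ∈ S, ∑ g1 ∈ T, ω' f1 g1 * F f1 g1 =
      ∑ f ∈ S, ∑ g ∈ T, ω f g * ∑ i ∈ fib S f y, ∑ j ∈ fib T g y,
        K (fib S f y) (fib T g y) i j * F (Function.update f y i) (Function.update g y j) := by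
    intro F
    have e1 : ∀ f1 ∈ S, ∀ g1 ∈ T, ω' f1 g1 * F f1 g1 = ∑ f ∈ S, ∑ g ∈ T,
        (if upd_R y f f1 then (if upd_R y g g1 then
          ω f g * (K (fib S f y) (fib T g y) (f1 y) (g1 y) * F f1 g1) else 0) else 0) := by
      intro f1 _ g1 _
      rw [hω'a, sum_mul]
      apply sum_congr rfl
      intro f _
      rw [sum_mul]
      apply sum_congr rfl
      intro g _
      split_ifs
      · ring
      · ring
      · ring
    rw [sum_congr rfl fun f1 hf1 => sum_congr rfl fun g1 hg1 => e1 f1 hf1 g1 hg1, upd_swap]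
    apply sum_congr rfl
    intro f _
    apply sum_congr rfl
    intro g _
    have e3 : ∀ f1 ∈ S, ∑ g1 ∈ T, (if upd_R y f f1 then (if upd_R y g g1 then
          ω f g * (K (fib S f y) (fib T g y) (f1 y) (g1 y) * F f1 g1) else 0) else 0) =
        (if upd_R y f f1 then ∑ j ∈ fib T g y, ω f g * (K (fib S f y) (fib T g y) (f1 y) j *
          F f1 (Function.update g y j)) else 0) := by
      intro f1 _
      split_ifs
      · rw [upd_sum T g y (fun g1 => ω f g * (K (fib S f y) (fib T g y) (f1 y) (g1 y) * F f1 g1))]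
        apply sum_congr rfl
        intro j _
        rw [Function.update_self]
      · exact sum_const_zero
    rw [sum_congr rfl e3, upd_sum S f y (fun f1 => ∑ j ∈ fib T g y, ω f g *
      (K (fib S f y) (fib T g y) (f1 y) j * F f1 (Function.update g y j))), mul_sum]
    apply sum_congr rfl
    intro i _
    rw [mul_sum]
    apply sum_congr rfl
    intro j _
    rw [Function.update_self]
  have hmass : ∀ f ∈ S, ∀ g ∈ T, ∑ i ∈ fib S f y, ∑ j ∈ fib T g y,
      K (fib S f y) (fib T g y) i j = 1 := by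
    intro f hf g hg
    have h1 := (hK _ _ (hAne f hf) (hBne g hg)).2.1
    rw [sum_congr rfl h1, sum_const, nsmul_eq_mul]
    have h2 : ((fib S f y).card : ℝ) ≠ 0 := by
      have := card_pos.2 (hAne f hf)
      exact_mod_cast this.ne'
    field_simp
  refine ⟨ω', ⟨?_, ?_, ?_⟩, ?_, ?_⟩
  · -- nonnegative
    intro f1 g1
    rw [hω'a]
    apply sum_nonneg
    intro f hf
    apply sum_nonneg
    intro g hg
    split_ifs
    · exact mul_nonneg (hω.nn f g) ((hK _ _ (hAne f hf) (hBne g hg)).1 _ _)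
    · exact le_rfl
    · exact le_rfl
  · -- left marginal
    intro f1 hf1
    have e1 : ∑ g1 ∈ T, ω' f1 g1 = ∑ f ∈ S, (if upd_R y f1 f then
        1 / ((fib S f1 y).card : ℝ) * (1 / (S.card : ℝ)) else 0) := by
      have e2 : ∀ g1 ∈ T, ω' f1 g1 = ∑ f ∈ S, ∑ g ∈ T,
          (if upd_R y f f1 then (if upd_R y g g1 then
          ω f g * K (fib S f y) (fib T g y) (f1 y) (g1 y) else 0) else 0) := fun g1 _ => hω'a f1 g1
      rw [sum_congr rfl e2, sum_comm]
      apply sum_congr rfl
      intro f hf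
      rw [sum_comm]
      by_cases hR : upd_R y f f1
      · rw [if_pos (upd_R_symm hR)]
        have e3 : ∀ g ∈ T, ∑ g1 ∈ T, (if upd_R y f f1 then (if upd_R y g g1 then
            ω f g * K (fib S f y) (fib T g y) (f1 y) (g1 y) else 0) else 0) =
            1 / ((fib S f1 y).card : ℝ) * ω f g := by
          intro g hg
          simp only [if_pos hR]
          rw [upd_sum T g y (fun g1 => ω f g * K (fib S f y) (fib T g y) (f1 y) (g1 y)),
            ← mul_sum]
          have h1 := (hK _ _ (hAne f hf) (hBne g hg)).2.1 (f1 y) (upd_mem hf1 hR)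
          simp only [Function.update_self]
          rw [h1, upd_fib_congr S hR]
          ring
        rw [sum_congr rfl e3, ← mul_sum, hω.l f hf]
      · rw [if_neg fun h => hR (upd_R_symm h)]
        simp only [if_neg hR, sum_const_zero]
    rw [e1, upd_sum S f1 y (fun _ => 1 / ((fib S f1 y).card : ℝ) * (1 / (S.card : ℝ))), sum_const,
      nsmul_eq_mul]
    have h2 : ((fib S f1 y).card : ℝ) ≠ 0 := by
      have := card_pos.2 (hAne f1 hf1)
      exact_mod_cast this.ne'
    field_simp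
  · -- right marginal
    intro g1 hg1
    have e1 : ∑ f1 ∈ S, ω' f1 g1 = ∑ g ∈ T, (if upd_R y g1 g then
        1 / ((fib T g1 y).card : ℝ) * (1 / (T.card : ℝ)) else 0) := by
      have e2 : ∀ f1 ∈ S, ω' f1 g1 = ∑ g ∈ T, ∑ f ∈ S,
          (if upd_R y f f1 then (if upd_R y g g1 then
          ω f g * K (fib S f y) (fib T g y) (f1 y) (g1 y) else 0) else 0) := by
        intro f1 _
        rw [hω'a f1 g1, sum_comm]
      rw [sum_congr rfl e2, sum_comm]
      apply sum_congr rfl
      intro g hg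
      rw [sum_comm]
      by_cases hR : upd_R y g g1
      · rw [if_pos (upd_R_symm hR)]
        have e3 : ∀ f ∈ S, ∑ f1 ∈ S, (if upd_R y f f1 then (if upd_R y g g1 then
            ω f g * K (fib S f y) (fib T g y) (f1 y) (g1 y) else 0) else 0) =
            1 / ((fib T g1 y).card : ℝ) * ω f g := by
          intro f hf
          simp only [if_pos hR]
          rw [upd_sum S f y (fun f1 => ω f g * K (fib S f y) (fib T g y) (f1 y) (g1 y)),
            ← mul_sum]
          have h1 := (hK _ _ (hAne f hf) (hBne g hg)).2.2.1 (g1 y) (upd_mem hg1 hR)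
          simp only [Function.update_self]
          rw [h1, upd_fib_congr T hR]
          ring
        rw [sum_congr rfl e3, ← mul_sum, hω.r g hg]
      · rw [if_neg fun h => hR (upd_R_symm h)]
        simp only [if_neg hR, ite_self, sum_const_zero]
    rw [e1, upd_sum T g1 y (fun _ => 1 / ((fib T g1 y).card : ℝ) * (1 / (T.card : ℝ))), sum_const,
      nsmul_eq_mul]
    have h2 : ((fib T g1 y).card : ℝ) ≠ 0 := by
      have := card_pos.2 (hBne g1 hg1)
      exact_mod_cast this.ne'
    field_simp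
  · -- the other vertices
    intro z hz
    unfold pne
    have e1 : ∀ f1 ∈ S, ∀ g1 ∈ T, (if f1 z = g1 z then 0 else ω' f1 g1) =
        ω' f1 g1 * (if f1 z = g1 z then 0 else 1) := by
      intro f1 _ g1 _
      split_ifs
      · rw [mul_zero]
      · rw [mul_one]
    rw [sum_congr rfl fun f1 hf1 => sum_congr rfl fun g1 hg1 => e1 f1 hf1 g1 hg1,
      hgen (fun f1 g1 => if f1 z = g1 z then 0 else 1)]
    apply sum_congr rfl
    intro f hf
    apply sum_congr rfl
    intro g hg
    simp only [Function.update_of_ne hz]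
    split_ifs
    · simp only [mul_zero, sum_const_zero]
    · simp only [mul_one]
      rw [hmass f hf g hg, mul_one]
  · -- the updated vertex
    unfold pne
    have e1 : ∀ f1 ∈ S, ∀ g1 ∈ T, (if f1 y = g1 y then 0 else ω' f1 g1) =
        ω' f1 g1 * (if f1 y = g1 y then 0 else 1) := by
      intro f1 _ g1 _
      split_ifs
      · rw [mul_zero]
      · rw [mul_one]
    rw [sum_congr rfl fun f1 hf1 => sum_congr rfl fun g1 hg1 => e1 f1 hf1 g1 hg1,
      hgen (fun f1 g1 => if f1 y = g1 y then 0 else 1)]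
    apply sum_le_sum
    intro f hf
    apply sum_le_sum
    intro g hg
    refine mul_le_mul_of_nonneg_left ?_ (hω.nn f g)
    have h1 := (hK _ _ (hAne f hf) (hBne g hg)).2.2.2
    refine le_trans (le_of_eq ?_) h1
    apply sum_congr rfl
    intro i _
    apply sum_congr rfl
    intro j _
    rw [Function.update_self, Function.update_self]
    split_ifs
    · rw [mul_zero]
    · rw [mul_one]

end Pool.Agent.Helper8.UN
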